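import Pool.Agent.Lib_MP_22d2c8_loc.Defs

/-!
# Piece FOREST: a star forest in `U`
-/

set_option autoImplicit false

namespace Pool.Agent.Lib_MP_22d2c8_loc

open Finset
open Pool.Agent.Lib_MP_22d2c8_clq

private theorem joins_unique {N : ℕ} {e f : EdgeVar N} {i j : Fin N} (he : Joins e i j)
    (hf : Joins f i j) : e = f := by
  have h1 := e.2
  have h2 := f.2
  apply Subtype.ext
  rcases he with ⟨a, b⟩ | ⟨a, b⟩ <;> rcases hf with ⟨c, d⟩ | ⟨c, d⟩
  · exact Prod.ext (a.trans c.symm) (b.trans d.symm)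
  · rw [a, b] at h1
    rw [c, d] at h2
    exact absurd h1 (lt_asymm h2)
  · rw [a, b] at h1
    rw [c, d] at h2
    exact absurd h1 (lt_asymm h2)
  · exact Prod.ext (a.trans c.symm) (b.trans d.symm)

/-- PROOF. `H = touched U`. Let `J ⊆ H` be maximal (by inclusion, or of maximal cardinality) without an edge of `U` between two of its
elements. Every vertex of `H \ J` has a neighbour in `J` (maximality), every vertex of `J` has a neighbour, which is in `H \ J`. One of
the sets `J`, `H \ J` has at least `h / 2` elements: these are the leaves `W`, and `c : W → H \ W` (choice). -/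
theorem exists_forest {N : ℕ} (U : Finset (EdgeVar N)) :
    ∃ (W : Finset (Fin N)) (c : Fin N → Fin N), (touched U).card ≤ 2 * W.card ∧
      (∀ w ∈ W, c w ∉ W) ∧ ∀ w ∈ W, ∀ e : EdgeVar N, Joins e (c w) w → e ∈ U := by
  classical
  have hmem : ∀ x, x ∈ touched U → ∃ y, ∃ e ∈ U, Joins e y x := by
    intro x hx
    unfold touched at hx
    rcases mem_union.1 hx with h | h
    · obtain ⟨e, he, rfl⟩ := mem_image.1 h
      exact ⟨e.1.2, e, he, Or.inr ⟨rfl, rfl⟩⟩
    · obtain ⟨e, he, rfl⟩ := mem_image.1 h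
      exact ⟨e.1.1, e, he, Or.inl ⟨rfl, rfl⟩⟩
  have htouch : ∀ e ∈ U, e.1.1 ∈ touched U ∧ e.1.2 ∈ touched U := fun e he =>
    ⟨mem_union_left _ (mem_image_of_mem _ he), mem_union_right _ (mem_image_of_mem _ he)⟩
  obtain ⟨J, hJ, hmax⟩ := exists_max_image
    ((touched U).powerset.filter fun J => ∀ e ∈ U, ¬ (e.1.1 ∈ J ∧ e.1.2 ∈ J)) card
    ⟨∅, mem_filter.2 ⟨mem_powerset.2 (empty_subset _), fun e _ h => absurd h.1 (notMem_empty _)⟩⟩
  obtain ⟨hJH, hJ0⟩ := mem_filter.1 hJ
  rw [mem_powerset] at hJH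
  rcases Nat.le_total (touched U \ J).card J.card with hc | hc
  · -- the leaves are `J`
    have hcard : (touched U).card ≤ 2 * J.card := by
      have h := card_sdiff_add_card_eq_card hJH
      omega
    choose! c hc1 using hmem
    refine ⟨J, c, hcard, ?_, ?_⟩
    · intro w hw hcw
      obtain ⟨e, he, hj⟩ := hc1 w (hJH hw)
      rcases hj with ⟨h1, h2⟩ | ⟨h1, h2⟩
      · exact hJ0 e he ⟨by rw [h1]; exact hcw, by rw [h2]; exact hw⟩
      · exact hJ0 e he ⟨by rw [h1]; exact hw, by rw [h2]; exact hcw⟩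
    · intro w hw e he
      obtain ⟨f, hf, hj⟩ := hc1 w (hJH hw)
      rw [joins_unique he hj]
      exact hf
  · -- the leaves are `touched U \ J`
    have hcard : (touched U).card ≤ 2 * (touched U \ J).card := by
      have h := card_sdiff_add_card_eq_card hJH
      omega
    have hnb : ∀ w ∈ touched U \ J, ∃ y ∈ J, ∃ e ∈ U, Joins e y w := by
      intro w hw
      obtain ⟨hwH, hwJ⟩ := mem_sdiff.1 hw
      by_contra hcon
      push Not at hcon
      have hbig : insert w J ∈ (touched U).powerset.filter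
          fun J => ∀ e ∈ U, ¬ (e.1.1 ∈ J ∧ e.1.2 ∈ J) := by
        refine mem_filter.2 ⟨mem_powerset.2 (insert_subset hwH hJH), ?_⟩
        rintro e he ⟨h1, h2⟩
        rw [mem_insert] at h1 h2
        rcases h1 with h1 | h1 <;> rcases h2 with h2 | h2
        · have h3 := e.2
          rw [h1, h2] at h3
          exact absurd h3 (lt_irrefl _)
        · exact hcon _ h2 e he (Or.inr ⟨h1, rfl⟩)
        · exact hcon _ h1 e he (Or.inl ⟨rfl, h2⟩)
        · exact hJ0 e he ⟨h1, h2⟩
      have h4 := hmax _ hbig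
      rw [card_insert_of_notMem hwJ] at h4
      omega
    choose! c hc1 hc2 using hnb
    refine ⟨touched U \ J, c, hcard, ?_, ?_⟩
    · intro w hw hcw
      exact (mem_sdiff.1 hcw).2 (hc1 w hw)
    · intro w hw e he
      obtain ⟨f, hf, hj⟩ := hc2 w hw
      rw [joins_unique he hj]
      exact hf

end Pool.Agent.Lib_MP_22d2c8_loc
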