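import Pool.Agent.Lib_MP_22d2c8_loc.Defs

/-!
# Piece SORT: arrays of leaves in a star forest, and in a complete bipartite graph
-/

set_option autoImplicit false

namespace Pool.Agent.Lib_MP_22d2c8_loc

open Finset
open Pool.Agent.Lib_MP_22d2c8_clq

/-- The rank of `p` in the finite set `I`. -/
private def rnk {N : ℕ} (I : Finset (Fin N)) (p : Fin N) : ℕ := (I.filter (fun x => x < p)).card

private theorem rnk_sep {N n d : ℕ} (g : Fin n → Fin N) (hg : Monotone g) (l l' : Fin n)
    (hl : (l' : ℕ) < l + d) (hlt : g l < g l')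
    (h : rnk (univ.image g) (g l) % d = rnk (univ.image g) (g l') % d) : False := by
  classical
  have hll : l < l' := by
    by_contra hc
    exact absurd (hg (not_lt.1 hc)) (not_le.2 hlt)
  set I := univ.image g with hI
  have hsplit : I.filter (fun x => x < g l') =
      I.filter (fun x => x < g l) ∪ I.filter (fun x => g l ≤ x ∧ x < g l') := by
    ext x
    simp only [mem_filter, mem_union]
    constructor
    · rintro ⟨h1, h2⟩
      rcases lt_or_ge x (g l) with h3 | h3
      · exact Or.inl ⟨h1, h3⟩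
      · exact Or.inr ⟨h1, h3, h2⟩
    · rintro (⟨h1, h2⟩ | ⟨h1, h2, h3⟩)
      · exact ⟨h1, h2.trans hlt⟩
      · exact ⟨h1, h3⟩
  have hdis : Disjoint (I.filter (fun x => x < g l)) (I.filter (fun x => g l ≤ x ∧ x < g l')) := by
    rw [disjoint_left]
    intro x hx hx'
    exact absurd (mem_filter.1 hx').2.1 (not_le.2 (mem_filter.1 hx).2)
  have hr : rnk I (g l') = rnk I (g l) + (I.filter (fun x => g l ≤ x ∧ x < g l')).card := by
    unfold rnk
    rw [hsplit, card_union_of_disjoint hdis]
  have hpos : 0 < (I.filter (fun x => g l ≤ x ∧ x < g l')).card :=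
    card_pos.2 ⟨g l, mem_filter.2 ⟨mem_image.2 ⟨l, mem_univ _, rfl⟩, le_rfl, hlt⟩⟩
  have hsub : I.filter (fun x => g l ≤ x ∧ x < g l') ⊆ (Finset.Ico l l').image g := by
    intro x hx
    obtain ⟨h1, h2, h3⟩ := mem_filter.1 hx
    obtain ⟨t, -, rfl⟩ := mem_image.1 h1
    have ht' : t < l' := by
      by_contra hc
      exact absurd (hg (not_lt.1 hc)) (not_le.2 h3)
    rcases h2.eq_or_lt with h2 | h2
    · rw [← h2]
      exact mem_image.2 ⟨l, mem_Ico.2 ⟨le_rfl, hll⟩, rfl⟩
    · have ht : l < t := by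
        by_contra hc
        exact absurd (hg (not_lt.1 hc)) (not_le.2 h2)
      exact mem_image.2 ⟨t, mem_Ico.2 ⟨ht.le, ht'⟩, rfl⟩
  have hcard : (I.filter (fun x => g l ≤ x ∧ x < g l')).card < d := by
    have h1 := (card_le_card hsub).trans card_image_le
    rw [Fin.card_Ico] at h1
    have : (l : ℕ) < l' := hll
    omega
  rw [hr] at h
  have h2 : (rnk I (g l)) ≡ rnk I (g l) + (I.filter (fun x => g l ≤ x ∧ x < g l')).card [MOD d] := h
  have h3 : d ∣ (I.filter (fun x => g l ≤ x ∧ x < g l')).card := by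
    have := (Nat.modEq_iff_dvd' (Nat.le_add_right _ _)).1 h2
    simpa using this
  exact absurd (Nat.le_of_dvd hpos h3) (not_le.2 hcard)

/-- PROOF. Choose `K m q` elements of `W` and number them so that `c` is monotone: `leaf : Fin (K * (m * q)) → Fin N` injective
with `c (leaf l) ≤ c (leaf l')` for `l ≤ l'` (`Tuple.sort`, or sort `W` by the key `c w * N + w`). `Pt = {p // p ∈ image of c ∘ leaf}`,
so `card Pt ≤ K m q`; `cen (_, p) = p`, the array `b` consists of the leaves `b m q + i` (`finProdFinEquiv` twice), `part l = c (leaf l)`,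
`col p = #{p' ∈ Pt | p' < p} % (m q)`. `sep`: if the centres `p < p'` of two leaves `l < l' < l + m q` of an array have the same colour then
`#{p'' ∈ Pt | p ≤ p'' < p'}` is a positive multiple of `m q`; but all these `p''` are centres of leaves in `[l, l')` (monotonicity): less
than `m q` many, as `l' - l < m q`. -/
theorem star_of_forest {N K m q : ℕ} (hmq : 1 ≤ m * q) (W : Finset (Fin N)) (c : Fin N → Fin N)
    (hc : ∀ w ∈ W, c w ∉ W) (hK : K * (m * q) ≤ W.card) (U : Finset (EdgeVar N))
    (hU : ∀ w ∈ W, ∀ e : EdgeVar N, Joins e (c w) w → e ∈ U) :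
    ∃ (Pt : Type) (_ : Fintype Pt) (S : Star N Unit Pt (m * q) K m q),
      Fintype.card Pt ≤ K * (m * q) ∧ S.In U := by
  classical
  obtain ⟨W', hW', hcW⟩ := exists_subset_card_eq hK
  let f0 : Fin (K * (m * q)) → Fin N := fun l => ((W'.equivFin.trans (finCongr hcW)).symm l : W')
  have hf0 : Function.Injective f0 := fun a b hab =>
    (W'.equivFin.trans (finCongr hcW)).symm.injective (Subtype.ext hab)
  have hf0W : ∀ l, f0 l ∈ W := fun l => hW' ((W'.equivFin.trans (finCongr hcW)).symm l).2
  let σ := Tuple.sort (c ∘ f0)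
  have hmono : Monotone (c ∘ f0 ∘ σ) := Tuple.monotone_sort (c ∘ f0)
  set f : Fin (K * (m * q)) → Fin N := f0 ∘ σ with hfdef
  have hf : Function.Injective f := hf0.comp σ.injective
  have hfW : ∀ l, f l ∈ W := fun l => hf0W _
  set g : Fin (K * (m * q)) → Fin N := c ∘ f with hgdef
  let idx : Fin K × (Fin m × Fin q) ≃ Fin (K * (m * q)) :=
    (Equiv.prodCongr (Equiv.refl _) finProdFinEquiv).trans finProdFinEquiv
  have hidx : ∀ b i i', ((idx (b, i') : Fin _) : ℕ) < (idx (b, i) : Fin _) + m * q := by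
    intro b i i'
    simp only [idx, Equiv.trans_apply, Equiv.prodCongr_apply, Prod.map_apply, Equiv.refl_apply,
      finProdFinEquiv_apply_val]
    have := (finProdFinEquiv i').isLt
    simp only [finProdFinEquiv_apply_val] at this
    omega
  let Pt : Type := {p : Fin N // p ∈ univ.image g}
  have hPt : ∀ l, g l ∈ univ.image g := fun l => mem_image.2 ⟨l, mem_univ _, rfl⟩
  refine ⟨Pt, Finset.Subtype.fintype (univ.image g),
    { cen := fun x => x.2.1
      leaf := fun l => f (idx l)
      part := fun l => ⟨g (idx l), hPt _⟩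
      col := fun p => ⟨rnk (univ.image g) p.1 % (m * q), Nat.mod_lt _ hmq⟩
      inj := ?_
      sep := ?_ }, ?_, ?_⟩
  · rintro (⟨⟨⟩, p⟩ | l) (⟨⟨⟩, p'⟩ | l') h
    · simp only [Sum.elim_inl] at h
      have : p = p' := Subtype.ext h
      rw [this]
    · exfalso
      simp only [Sum.elim_inl, Sum.elim_inr] at h
      obtain ⟨t, -, ht⟩ := mem_image.1 p.2
      apply hc (f t) (hfW t)
      rw [show c (f t) = p.1 from ht, h]
      exact hfW _
    · exfalso
      simp only [Sum.elim_inl, Sum.elim_inr] at h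
      obtain ⟨t, -, ht⟩ := mem_image.1 p'.2
      apply hc (f t) (hfW t)
      rw [show c (f t) = p'.1 from ht, ← h]
      exact hfW _
    · simp only [Sum.elim_inr] at h
      rw [idx.injective (hf h)]
  · intro b i i' h
    have h' : rnk (univ.image g) (g (idx (b, i))) % (m * q) =
        rnk (univ.image g) (g (idx (b, i'))) % (m * q) := by
      simpa using h
    apply Subtype.ext
    change g (idx (b, i)) = g (idx (b, i'))
    rcases lt_trichotomy (g (idx (b, i))) (g (idx (b, i'))) with h1 | h1 | h1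
    · exact (rnk_sep g hmono _ _ (hidx b i i') h1 h').elim
    · exact h1
    · exact (rnk_sep g hmono _ _ (hidx b i' i) h1 h'.symm).elim
  · refine (Fintype.card_of_subtype (univ.image g) (fun _ => Iff.rfl)).le.trans ?_
    refine card_image_le.trans ?_
    simp
  · rintro ⟨⟩ l e he
    exact hU (f (idx l)) (hfW _) e he

/-- PROOF. `cen (a, ())` = an injective enumeration of `k` elements of `A`, `leaf` an injective family in `B`. -/
theorem star_of_bip {N K k m q : ℕ} (A B : Finset (Fin N)) (hAB : Disjoint A B) (hk : k ≤ A.card)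
    (hK : K * (m * q) ≤ B.card) (U : Finset (EdgeVar N))
    (hU : ∀ e : EdgeVar N, (e.1.1 ∈ A ∧ e.1.2 ∈ B) ∨ (e.1.1 ∈ B ∧ e.1.2 ∈ A) → e ∈ U) :
    ∃ S : Star N (Fin k) Unit 1 K m q, S.In U := by
  classical
  obtain ⟨A', hA', hcA⟩ := exists_subset_card_eq hk
  obtain ⟨B', hB', hcB⟩ := exists_subset_card_eq hK
  let fa : Fin k → Fin N := fun l => ((A'.equivFin.trans (finCongr hcA)).symm l : A')
  let fb : Fin (K * (m * q)) → Fin N := fun l => ((B'.equivFin.trans (finCongr hcB)).symm l : B')
  have hfa : Function.Injective fa := fun a b hab =>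
    (A'.equivFin.trans (finCongr hcA)).symm.injective (Subtype.ext hab)
  have hfb : Function.Injective fb := fun a b hab =>
    (B'.equivFin.trans (finCongr hcB)).symm.injective (Subtype.ext hab)
  have hfaA : ∀ l, fa l ∈ A := fun l => hA' ((A'.equivFin.trans (finCongr hcA)).symm l).2
  have hfbB : ∀ l, fb l ∈ B := fun l => hB' ((B'.equivFin.trans (finCongr hcB)).symm l).2
  let idx : Fin K × (Fin m × Fin q) ≃ Fin (K * (m * q)) :=
    (Equiv.prodCongr (Equiv.refl _) finProdFinEquiv).trans finProdFinEquiv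
  refine ⟨{ cen := fun x => fa x.1
            leaf := fun l => fb (idx l)
            part := fun _ => ()
            col := fun _ => 0
            inj := ?_
            sep := fun _ _ _ _ => rfl }, ?_⟩
  · rintro (⟨a, ⟨⟩⟩ | l) (⟨a', ⟨⟩⟩ | l') h
    · simp only [Sum.elim_inl] at h
      rw [hfa h]
    · exfalso
      simp only [Sum.elim_inl, Sum.elim_inr] at h
      exact disjoint_left.1 hAB (hfaA a) (h ▸ hfbB (idx l'))
    · exfalso
      simp only [Sum.elim_inl, Sum.elim_inr] at h
      exact disjoint_left.1 hAB (hfaA a') (h ▸ hfbB (idx l))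
    · simp only [Sum.elim_inr] at h
      rw [idx.injective (hfb h)]
  · rintro a l e (⟨h1, h2⟩ | ⟨h1, h2⟩)
    · apply hU e
      left
      exact ⟨h1 ▸ hfaA a, h2 ▸ hfbB (idx l)⟩
    · apply hU e
      right
      exact ⟨h1 ▸ hfbB (idx l), h2 ▸ hfaA a⟩

end Pool.Agent.Lib_MP_22d2c8_loc
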