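import Pool.Agent.Lib_MP_22d2c8_loc.Defs

/-!
# Piece STARG: the clique function contains the OR of the blocks `(a, b)` of a star
-/

set_option autoImplicit false

namespace Pool.Agent.Lib_MP_22d2c8_loc

open Finset
open Pool.Agent.Lib_MP_22d2c8_clq

section Graph

variable {A Pt : Type} {R K P w m q : ℕ}

/-- The vertices: centres, leaves, the gadget, dummies, padding. -/
abbrev VxS (A Pt : Type) (R K P w m q : ℕ) : Type :=
  (A × Pt) ⊕ ((Fin K × (Fin m × Fin q)) ⊕ (Gad w m q ⊕ (Fin R ⊕ Fin P)))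

/-- The leaf. -/
def lfS (l : Fin K × (Fin m × Fin q)) : VxS A Pt R K P w m q := .inr (.inl l)

/-- The colours of the vertices. -/
abbrev ColS (R P w m : ℕ) : Type := Fin R ⊕ (Fin m ⊕ ((Fin m × Fin (w + 1)) ⊕ Fin P))

/-- The colour of a vertex. -/
def colS (cl : Pt → Fin R) : VxS A Pt R K P w m q → ColS R P w m
  | .inl (_, p) => .inl (cl p)
  | .inr (.inl l) => .inr (.inl l.2.1)
  | .inr (.inr (.inl u)) => .inr (.inr (.inl (u.1, u.2.1)))
  | .inr (.inr (.inr (.inl s))) => .inl s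
  | .inr (.inr (.inr (.inr p))) => .inr (.inr (.inr p))

/-- One half of the adjacency. -/
def OkS (part : Fin K × (Fin m × Fin q) → Pt) (cl : Pt → Fin R)
    (x : A × Fin K → Fin m × Fin q → Prop) :
    VxS A Pt R K P w m q → VxS A Pt R K P w m q → Prop
  | .inl (a, _), .inl (a', _) => a = a'
  | .inl (a, p), .inr (.inl l) => cl p = cl (part l) → p = part l ∧ x (a, l.1) l.2
  | .inr (.inl l), .inr (.inl l') => l.1 = l'.1
  | .inr (.inl l), .inr (.inr (.inl u)) => u.2.1 = Fin.last w → u.1 = l.2.1 → u.2.2.1 = l.2.2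
  | .inr (.inl l), .inr (.inr (.inr (.inl s))) => s ≠ cl (part l)
  | .inr (.inr (.inl u)), .inr (.inr (.inl u')) => GAdj u u'
  | _, _ => True

/-- The adjacency. -/
def AdjS (part : Fin K × (Fin m × Fin q) → Pt) (cl : Pt → Fin R)
    (x : A × Fin K → Fin m × Fin q → Prop) (u v : VxS A Pt R K P w m q) : Prop :=
  colS cl u ≠ colS cl v ∧ OkS part cl x u v ∧ OkS part cl x v u

theorem AdjS.symm {part : Fin K × (Fin m × Fin q) → Pt} {cl : Pt → Fin R}
    {x : A × Fin K → Fin m × Fin q → Prop} {u v : VxS A Pt R K P w m q}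
    (h : AdjS part cl x u v) : AdjS part cl x v u :=
  ⟨fun e => h.1 e.symm, h.2.2, h.2.1⟩

theorem OkS.mono {part : Fin K × (Fin m × Fin q) → Pt} {cl : Pt → Fin R}
    {x x' : A × Fin K → Fin m × Fin q → Prop} (hx : ∀ b i, x b i → x' b i)
    {u v : VxS A Pt R K P w m q} (h : OkS part cl x u v) : OkS part cl x' u v := by
  rcases u with ⟨a, p⟩ | l | u | s | t <;> rcases v with ⟨a', p'⟩ | l' | u' | s' | t' <;>
    simp only [OkS] at h ⊢ <;> try exact h
  intro e
  exact ⟨(h e).1, hx _ _ (h e).2⟩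

theorem OkS.indep {part : Fin K × (Fin m × Fin q) → Pt} {cl : Pt → Fin R}
    {x x' : A × Fin K → Fin m × Fin q → Prop} {u v : VxS A Pt R K P w m q}
    (h : OkS part cl x u v) (hn : ∀ c l, u = .inl c → v = lfS l → False) :
    OkS part cl x' u v := by
  rcases u with ⟨a, p⟩ | l | u | s | t <;> rcases v with ⟨a', p'⟩ | l' | u' | s' | t' <;>
    first
    | exact h
    | exact (hn _ _ rfl rfl).elim

/-- The adjacency consists of constant edges and of variable edges. -/
theorem adjS_iff {part : Fin K × (Fin m × Fin q) → Pt} {cl : Pt → Fin R}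
    {x : A × Fin K → Fin m × Fin q → Prop} {u v : VxS A Pt R K P w m q} :
    AdjS part cl x u v ↔ AdjS part cl (fun _ _ => False) u v ∨
      ∃ b i, x b i ∧ ((u = .inl (b.1, part (b.2, i)) ∧ v = lfS (b.2, i)) ∨
        (v = .inl (b.1, part (b.2, i)) ∧ u = lfS (b.2, i))) := by
  constructor
  · rintro ⟨h1, h2, h3⟩
    by_cases hc : ∃ c l, u = .inl c ∧ v = lfS l
    · obtain ⟨⟨a, p⟩, l, rfl, rfl⟩ := hc
      have h2' : cl p = cl (part l) → p = part l ∧ x (a, l.1) l.2 := h2
      by_cases e : cl p = cl (part l)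
      · obtain ⟨e1, e2⟩ := h2' e
        exact Or.inr ⟨(a, l.1), l.2, e2, Or.inl ⟨by rw [e1], rfl⟩⟩
      · exact Or.inl ⟨h1, fun e' => absurd e' e, trivial⟩
    · by_cases hc' : ∃ c l, v = .inl c ∧ u = lfS l
      · obtain ⟨⟨a, p⟩, l, rfl, rfl⟩ := hc'
        have h3' : cl p = cl (part l) → p = part l ∧ x (a, l.1) l.2 := h3
        by_cases e : cl p = cl (part l)
        · obtain ⟨e1, e2⟩ := h3' e
          exact Or.inr ⟨(a, l.1), l.2, e2, Or.inr ⟨by rw [e1], rfl⟩⟩
        · exact Or.inl ⟨h1, trivial, fun e' => absurd e' e⟩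
      · exact Or.inl ⟨h1, h2.indep fun c l e e' => hc ⟨c, l, e, e'⟩,
          h3.indep fun c l e e' => hc' ⟨c, l, e, e'⟩⟩
  · rintro (⟨h1, h2, h3⟩ | ⟨b, i, hx, ⟨rfl, rfl⟩ | ⟨rfl, rfl⟩⟩)
    · exact ⟨h1, h2.mono (fun _ _ h => h.elim), h3.mono (fun _ _ h => h.elim)⟩
    · exact ⟨by simp [colS, lfS], fun _ => ⟨rfl, hx⟩, trivial⟩
    · exact ⟨by simp [colS, lfS], trivial, fun _ => ⟨rfl, hx⟩⟩

open Classical in
/-- The clique of a polynomial. -/
theorem cliqueS_of_poly (hq : 0 < q) (part : Fin K × (Fin m × Fin q) → Pt) (cl : Pt → Fin R)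
    (sep : ∀ b i i', cl (part (b, i)) = cl (part (b, i')) → part (b, i) = part (b, i'))
    (x : A × Fin K → Fin m × Fin q → Prop) (b : A × Fin K) (hb : HasPoly w m q (x b)) :
    ∃ g : ColS R P w m → VxS A Pt R K P w m q,
      ∀ c c', c ≠ c' → AdjS part cl x (g c) (g c') := by
  obtain ⟨a, ha⟩ := hb
  let val : Fin m → Fin q := fun j =>
    ⟨(∑ l, (a l : ℕ) * (j : ℕ) ^ (l : ℕ)) % q, Nat.mod_lt _ hq⟩
  have hval : ∀ j, x b (j, val j) := fun j => ha j _ rfl
  let g0 : Fin R → VxS A Pt R K P w m q := fun s =>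
    if h : ∃ j, cl (part (b.2, (j, val j))) = s then .inl (b.1, part (b.2, (h.choose, val h.choose)))
    else .inr (.inr (.inr (.inl s)))
  have hg0 : ∀ s, (∃ j, cl (part (b.2, (j, val j))) = s ∧ g0 s = .inl (b.1, part (b.2, (j, val j)))) ∨
      ((∀ j, cl (part (b.2, (j, val j))) ≠ s) ∧ g0 s = .inr (.inr (.inr (.inl s)))) := by
    intro s
    by_cases h : ∃ j, cl (part (b.2, (j, val j))) = s
    · left
      refine ⟨h.choose, h.choose_spec, ?_⟩
      show (if h : _ then _ else _) = _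
      rw [dif_pos h]
    · right
      refine ⟨fun j e => h ⟨j, e⟩, ?_⟩
      show (if h : _ then _ else _) = _
      rw [dif_neg h]
  refine ⟨fun c => match c with
    | .inl s => g0 s
    | .inr (.inl j) => lfS (b.2, (j, val j))
    | .inr (.inr (.inl (j, t))) => .inr (.inr (.inl (pick hq a j t)))
    | .inr (.inr (.inr p)) => .inr (.inr (.inr (.inr p))), ?_⟩
  have key : ∀ c c', c ≠ c' → OkS part cl x
      ((fun c : ColS R P w m => match c with
        | .inl s => g0 s
        | .inr (.inl j) => lfS (b.2, (j, val j))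
        | .inr (.inr (.inl (j, t))) => .inr (.inr (.inl (pick hq a j t)))
        | .inr (.inr (.inr p)) => .inr (.inr (.inr (.inr p)))) c)
      ((fun c : ColS R P w m => match c with
        | .inl s => g0 s
        | .inr (.inl j) => lfS (b.2, (j, val j))
        | .inr (.inr (.inl (j, t))) => .inr (.inr (.inl (pick hq a j t)))
        | .inr (.inr (.inr p)) => .inr (.inr (.inr (.inr p)))) c') := by
    rintro (s | j | ⟨j, t⟩ | p) (s' | j' | ⟨j', t'⟩ | p') hne
    · show OkS part cl x (g0 s) (g0 s')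
      rcases hg0 s with ⟨j, -, h2⟩ | ⟨-, h2⟩ <;> rcases hg0 s' with ⟨j', -, h2'⟩ | ⟨-, h2'⟩ <;>
        rw [h2, h2'] <;> simp [OkS]
    · show OkS part cl x (g0 s) (lfS (b.2, (j', val j')))
      rcases hg0 s with ⟨j, h1, h2⟩ | ⟨-, h2⟩
      · rw [h2]
        intro e
        exact ⟨sep _ _ _ e, hval j'⟩
      · rw [h2]
        trivial
    · show OkS part cl x (g0 s) (.inr (.inr (.inl (pick hq a j' t'))))
      rcases hg0 s with ⟨j, -, h2⟩ | ⟨-, h2⟩ <;> rw [h2] <;> trivial
    · show OkS part cl x (g0 s) (.inr (.inr (.inr (.inr p'))))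
      rcases hg0 s with ⟨j, -, h2⟩ | ⟨-, h2⟩ <;> rw [h2] <;> trivial
    · show OkS part cl x (lfS (b.2, (j, val j))) (g0 s')
      rcases hg0 s' with ⟨j', -, h2⟩ | ⟨h1, h2⟩
      · rw [h2]
        trivial
      · rw [h2]
        exact fun e => h1 j e.symm
    · exact rfl
    · intro h1 h2
      have h1' : t' = Fin.last w := h1
      have h2' : j' = j := h2
      subst h1' h2'
      rw [pick_last]
    · trivial
    · show OkS part cl x (.inr (.inr (.inl (pick hq a j t)))) (g0 s')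
      rcases hg0 s' with ⟨j', -, h2⟩ | ⟨-, h2⟩ <;> rw [h2] <;> trivial
    · trivial
    · exact pick_adj hq a j j' t t' (fun e => hne (by rw [e]))
    · trivial
    · show OkS part cl x (.inr (.inr (.inr (.inr p)))) (g0 s')
      rcases hg0 s' with ⟨j', -, h2⟩ | ⟨-, h2⟩ <;> rw [h2] <;> trivial
    · trivial
    · trivial
    · trivial
  have hcol : ∀ c, colS cl
      ((fun c : ColS R P w m => match c with
        | .inl s => g0 s
        | .inr (.inl j) => lfS (b.2, (j, val j))
        | .inr (.inr (.inl (j, t))) => .inr (.inr (.inl (pick hq a j t)))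
        | .inr (.inr (.inr p)) => .inr (.inr (.inr (.inr p)))) c) = c := by
    rintro (s | j | ⟨j, t⟩ | p)
    · show colS cl (g0 s) = _
      rcases hg0 s with ⟨j, h1, h2⟩ | ⟨-, h2⟩
      · rw [h2]
        show Sum.inl _ = _
        rw [h1]
      · rw [h2]
        rfl
    · rfl
    · rfl
    · rfl
  intro c c' hne
  refine ⟨?_, key c c' hne, key c' c (fun e => hne e.symm)⟩
  rw [hcol, hcol]
  exact hne

/-- The polynomial of a clique with all the colours. -/
theorem polyS_of_clique (hw : 1 ≤ w) (hm : 1 ≤ m) (hq : 0 < q)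
    (part : Fin K × (Fin m × Fin q) → Pt) (cl : Pt → Fin R)
    (x : A × Fin K → Fin m × Fin q → Prop) (g : ColS R P w m → VxS A Pt R K P w m q)
    (hcol : ∀ c, colS cl (g c) = c) (hadj : ∀ c c', c ≠ c' → AdjS part cl x (g c) (g c')) :
    ∃ b, HasPoly w m q (x b) := by
  -- the gadget vertices
  have hgad : ∀ (j : Fin m) (t : Fin (w + 1)), ∃ u : Gad w m q,
      g (.inr (.inr (.inl (j, t)))) = .inr (.inr (.inl u)) ∧ u.1 = j ∧ u.2.1 = t := by
    intro j t
    have h := hcol (.inr (.inr (.inl (j, t))))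
    rcases hg : g (.inr (.inr (.inl (j, t)))) with ⟨a, p⟩ | l | u | s | p <;> rw [hg] at h <;>
      simp only [colS] at h
    · exact absurd h (by simp)
    · exact absurd h (by simp)
    · have h2 : u.1 = j ∧ u.2.1 = t := by simpa using h
      exact ⟨u, rfl, h2.1, h2.2⟩
    · exact absurd h (by simp)
    · exact absurd h (by simp)
  choose Q hQ hQ1 hQ2 using hgad
  -- the leaves
  have hlive : ∀ j : Fin m, ∃ (k : Fin K) (c : Fin q), g (.inr (.inl j)) = lfS (k, (j, c)) := by
    intro j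
    have h := hcol (.inr (.inl j))
    rcases hg : g (.inr (.inl j)) with ⟨a, p⟩ | l | u | s | p <;> rw [hg] at h <;>
      simp only [colS] at h
    · exact absurd h (by simp)
    · have h2 : l.2.1 = j := by simpa using h
      refine ⟨l.1, l.2.2, ?_⟩
      rw [← h2]
      rfl
    · exact absurd h (by simp)
    · exact absurd h (by simp)
    · exact absurd h (by simp)
  choose k c hk using hlive
  obtain ⟨a, ha⟩ := exists_poly hw hm hq Q hQ1 hQ2 (fun j t j' t' hne => by
    have h := (hadj (.inr (.inr (.inl (j, t)))) (.inr (.inr (.inl (j', t')))) (by simpa using hne)).2.1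
    rw [hQ, hQ] at h
    exact h)
  let j0 : Fin m := ⟨0, hm⟩
  have hkk : ∀ j, k j = k j0 := by
    intro j
    by_cases hj : j = j0
    · rw [hj]
    · have h := (hadj (.inr (.inl j)) (.inr (.inl j0)) (by simpa using hj)).2.1
      rw [hk, hk] at h
      exact h
  -- the centres
  have hcen : ∀ j : Fin m, ∃ α : A,
      g (.inl (cl (part (k j, (j, c j))))) = .inl (α, part (k j, (j, c j))) ∧ x (α, k j) (j, c j) := by
    intro j
    have h := hcol (.inl (cl (part (k j, (j, c j)))))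
    have h2 := hadj (.inl (cl (part (k j, (j, c j))))) (.inr (.inl j)) (by simp)
    rcases hg : g (.inl (cl (part (k j, (j, c j))))) with ⟨a, p⟩ | l | u | s | p
    · rw [hg] at h
      rw [hg, hk] at h2
      have h3 : cl p = cl (part (k j, (j, c j))) := by
        simpa [colS] using h
      obtain ⟨h4, h5⟩ := h2.2.1 h3
      exact ⟨a, by rw [h4], h5⟩
    · rw [hg] at h
      exact absurd h (by simp [colS])
    · rw [hg] at h
      exact absurd h (by simp [colS])
    · rw [hg] at h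
      rw [hg, hk] at h2
      have h3 : s = cl (part (k j, (j, c j))) := by
        simpa [colS] using h
      exact absurd h3 h2.2.2
    · rw [hg] at h
      exact absurd h (by simp [colS])
  choose α hα hx using hcen
  have hαα : ∀ j, α j = α j0 := by
    intro j
    by_cases e : cl (part (k j, (j, c j))) = cl (part (k j0, (j0, c j0)))
    · have h := hα j
      rw [e, hα j0] at h
      have h2 := Sum.inl_injective h
      exact (congrArg Prod.fst h2).symm
    · have h := (hadj (.inl (cl (part (k j, (j, c j))))) (.inl (cl (part (k j0, (j0, c j0)))))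
        (fun e' => e (Sum.inl_injective e'))).2.1
      rw [hα, hα] at h
      exact h
  refine ⟨(α j0, k j0), a, ?_⟩
  intro j c' hc'
  have h3 := (hadj (.inr (.inl j)) (.inr (.inr (.inl (j, Fin.last w)))) (by simp)).2.1
  rw [hQ, hk] at h3
  have h4 := h3 (hQ2 _ _) (hQ1 _ _)
  rw [ha j] at h4
  have h5 : c' = c j := (Fin.ext hc').trans h4
  have h6 := hx j
  rw [hαα, hkk] at h6
  rw [h5]
  exact h6

end Graph

/-! ### The embedding into the graphs with vertex set `Fin N` -/

theorem exists_joins {N : ℕ} {i j : Fin N} (h : i ≠ j) : ∃ e : EdgeVar N, Joins e i j := by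
  rcases lt_or_gt_of_ne h with h' | h'
  · exact ⟨⟨(i, j), h'⟩, Or.inl ⟨rfl, rfl⟩⟩
  · exact ⟨⟨(j, i), h'⟩, Or.inr ⟨rfl, rfl⟩⟩

theorem Joins.symm {N : ℕ} {e : EdgeVar N} {i j : Fin N} (h : Joins e i j) : Joins e j i :=
  Or.symm h

theorem joins_unique {N : ℕ} {e e' : EdgeVar N} {i j : Fin N} (h : Joins e i j)
    (h' : Joins e' i j) : e = e' := by
  obtain ⟨⟨a, b⟩, hab⟩ := e
  obtain ⟨⟨a', b'⟩, hab'⟩ := e'
  simp only [Joins] at h h'
  apply Subtype.ext
  rcases h with ⟨rfl, rfl⟩ | ⟨rfl, rfl⟩ <;> rcases h' with ⟨h1, h2⟩ | ⟨h1, h2⟩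
  · exact Prod.ext h1.symm h2.symm
  · exfalso
    have h3 : a < b := hab
    have h4 : a' < b' := hab'
    rw [h1, h2] at h4
    exact lt_asymm h3 h4
  · exfalso
    have h3 : a < b := hab
    have h4 : a' < b' := hab'
    rw [h1, h2] at h4
    exact lt_asymm h3 h4
  · exact Prod.ext h1.symm h2.symm

theorem joins_ends {N : ℕ} {e : EdgeVar N} {i j i' j' : Fin N} (h : Joins e i j)
    (h' : Joins e i' j') : (i = i' ∧ j = j') ∨ (i = j' ∧ j = i') := by
  rcases h with ⟨h1, h2⟩ | ⟨h1, h2⟩ <;> rcases h' with ⟨h3, h4⟩ | ⟨h3, h4⟩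
  · exact Or.inl ⟨h1.symm.trans h3, h2.symm.trans h4⟩
  · exact Or.inr ⟨h1.symm.trans h3, h2.symm.trans h4⟩
  · exact Or.inr ⟨h2.symm.trans h4, h1.symm.trans h3⟩
  · exact Or.inl ⟨h2.symm.trans h4, h1.symm.trans h3⟩

theorem graphOf_adj {N : ℕ} (y : EdgeVar N → Bool) (i j : Fin N) :
    (graphOf y).Adj i j ↔ ∃ e : EdgeVar N, Joins e i j ∧ y e = true := by
  show ((∃ h : i < j, y ⟨(i, j), h⟩ = true) ∨ ∃ h : j < i, y ⟨(j, i), h⟩ = true) ↔ _
  constructor
  · rintro (⟨h, hy⟩ | ⟨h, hy⟩)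
    · exact ⟨_, Or.inl ⟨rfl, rfl⟩, hy⟩
    · exact ⟨_, Or.inr ⟨rfl, rfl⟩, hy⟩
  · rintro ⟨⟨⟨a, b⟩, hab⟩, h, hy⟩
    simp only [Joins] at h
    rcases h with ⟨rfl, rfl⟩ | ⟨rfl, rfl⟩
    · exact Or.inl ⟨hab, hy⟩
    · exact Or.inr ⟨hab, hy⟩

theorem exists_rest {X Y : Type} [Fintype X] [Fintype Y] {N : ℕ} (f : X → Fin N)
    (h : Fintype.card X + Fintype.card Y ≤ N) :
    ∃ g : Y → Fin N, Function.Injective g ∧ ∀ y x, g y ≠ f x := by
  classical
  have h1 : Fintype.card Y ≤ Fintype.card {i : Fin N // i ∉ Finset.univ.image f} := by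
    rw [Fintype.card_subtype_compl, Fintype.card_fin, Fintype.card_coe]
    have h2 : (Finset.univ.image f).card ≤ Fintype.card X := Finset.card_image_le
    omega
  obtain ⟨e⟩ := Function.Embedding.nonempty_of_card_le h1
  refine ⟨fun y => (e y : Fin N), fun y y' hy => e.injective (Subtype.ext hy), ?_⟩
  intro y x hyx
  exact (e y).2 (Finset.mem_image.mpr ⟨x, Finset.mem_univ _, hyx.symm⟩)

section Emb

variable {N : ℕ} {A Pt : Type} {R K P w m q : ℕ} (S : Star N A Pt R K m q)
  (emb : VxS A Pt R K P w m q → Fin N)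

/-- The constant part of the input. -/
def zS (e : EdgeVar N) : Prop :=
  ∃ u v : VxS A Pt R K P w m q, emb u = e.1.1 ∧ emb v = e.1.2 ∧
    AdjS S.part S.col (fun _ _ => False) u v

theorem embS_ne {emb : VxS A Pt R K P w m q → Fin N} (hemb : Function.Injective emb)
    (b : A × Fin K) (i : Fin m × Fin q) :
    emb (.inl (b.1, S.part (b.2, i))) ≠ emb (lfS (b.2, i)) := by
  intro h
  have := hemb h
  simp [lfS] at this

theorem adj_embS {emb : VxS A Pt R K P w m q → Fin N} (hemb : Function.Injective emb)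
    (φ : A × Fin K → Fin m × Fin q → EdgeVar N)
    (hφ : ∀ b i, Joins (φ b i) (emb (.inl (b.1, S.part (b.2, i)))) (emb (lfS (b.2, i))))
    (x : A × Fin K → Fin m × Fin q → Prop) (y : EdgeVar N → Bool)
    (hy : ∀ j, y j = true ↔ fillIn (zS S emb) φ x j) (i j : Fin N) :
    (graphOf y).Adj i j ↔ ∃ u v : VxS A Pt R K P w m q, emb u = i ∧ emb v = j ∧
      AdjS S.part S.col x u v := by
  rw [graphOf_adj]
  constructor
  · rintro ⟨e, he, hye⟩
    rw [hy] at hye
    rcases hye with ⟨u, v, hu, hv, huv⟩ | ⟨b, k, hx, rfl⟩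
    · have huv' : AdjS S.part S.col x u v := adjS_iff.mpr (Or.inl huv)
      rcases he with ⟨h1, h2⟩ | ⟨h1, h2⟩
      · exact ⟨u, v, hu.trans h1, hv.trans h2, huv'⟩
      · exact ⟨v, u, hv.trans h2, hu.trans h1, huv'.symm⟩
    · have huv : AdjS (P := P) (w := w) S.part S.col x (.inl (b.1, S.part (b.2, k))) (lfS (b.2, k)) :=
        adjS_iff.mpr (Or.inr ⟨b, k, hx, Or.inl ⟨rfl, rfl⟩⟩)
      rcases joins_ends he (hφ b k) with ⟨h1, h2⟩ | ⟨h1, h2⟩
      · exact ⟨_, _, h1.symm, h2.symm, huv⟩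
      · exact ⟨_, _, h1.symm, h2.symm, huv.symm⟩
  · rintro ⟨u, v, rfl, rfl, huv⟩
    have hne : emb u ≠ emb v := by
      intro h
      exact huv.1 (by rw [hemb h])
    obtain ⟨e, he⟩ := exists_joins hne
    refine ⟨e, he, (hy e).mpr ?_⟩
    rcases adjS_iff.mp huv with h | ⟨b, k, hx, ⟨rfl, rfl⟩ | ⟨rfl, rfl⟩⟩
    · left
      rcases he with ⟨h1, h2⟩ | ⟨h1, h2⟩
      · exact ⟨u, v, h1.symm, h2.symm, h⟩
      · exact ⟨v, u, h1.symm, h2.symm, h.symm⟩
    · exact Or.inr ⟨b, k, hx, joins_unique (hφ b k) he⟩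
    · exact Or.inr ⟨b, k, hx, joins_unique (hφ b k) he.symm⟩

theorem card_colS : Fintype.card (ColS R P w m) = R + (m + (m * (w + 1) + P)) := by
  simp [ColS]

theorem cliqueS_iff (hw : 1 ≤ w) (hm : 1 ≤ m) (hq : 0 < q)
    {emb : VxS A Pt R K P w m q → Fin N} (hemb : Function.Injective emb)
    (φ : A × Fin K → Fin m × Fin q → EdgeVar N)
    (hφ : ∀ b i, Joins (φ b i) (emb (.inl (b.1, S.part (b.2, i)))) (emb (lfS (b.2, i))))
    (x : A × Fin K → Fin m × Fin q → Prop) (y : EdgeVar N → Bool)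
    (hy : ∀ j, y j = true ↔ fillIn (zS S emb) φ x j) :
    (∃ X : Finset (Fin N), (graphOf y).IsClique (X : Set (Fin N)) ∧
        R + (m + (m * (w + 1) + P)) ≤ X.card) ↔ ∃ b, HasPoly w m q (x b) := by
  classical
  constructor
  · rintro ⟨X, hX, hcard⟩
    have hmw : 2 ≤ m * (w + 1) := by
      calc 2 = 1 * (1 + 1) := rfl
        _ ≤ m * (w + 1) := Nat.mul_le_mul hm (by omega)
    -- every vertex of the clique has a name
    have hname : ∀ i ∈ X, ∃ u : VxS A Pt R K P w m q, emb u = i := by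
      intro i hi
      obtain ⟨j, hj, hne⟩ := Finset.exists_mem_ne (by omega : 1 < X.card) i
      obtain ⟨u, v, hu, -, -⟩ := (adj_embS S hemb φ hφ x y hy i j).mp (hX hi hj (fun e => hne e.symm))
      exact ⟨u, hu⟩
    have hne0 : Nonempty (VxS A Pt R K P w m q) := by
      obtain ⟨i, hi⟩ := Finset.card_pos.mp (by omega : 0 < X.card)
      obtain ⟨u, -⟩ := hname i hi
      exact ⟨u⟩
    choose! nm hnm using hname
    have hadj : ∀ i ∈ X, ∀ j ∈ X, i ≠ j → AdjS S.part S.col x (nm i) (nm j) := by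
      intro i hi j hj hne
      obtain ⟨u, v, hu, hv, hf⟩ := (adj_embS S hemb φ hφ x y hy i j).mp (hX hi hj hne)
      have e1 : nm i = u := hemb ((hnm i hi).trans hu.symm)
      have e2 : nm j = v := hemb ((hnm j hj).trans hv.symm)
      rw [e1, e2]
      exact hf
    have hinj : Set.InjOn (fun i => colS S.col (nm i)) (X : Set (Fin N)) := by
      intro i hi j hj hij
      by_contra hne
      exact (hadj i hi j hj hne).1 hij
    have hsurj : X.image (fun i => colS S.col (nm i)) = Finset.univ := by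
      apply Finset.eq_univ_of_card
      rw [Finset.card_image_of_injOn hinj]
      have h1 : X.card ≤ Fintype.card (ColS R P w m) := by
        rw [← Finset.card_image_of_injOn hinj]
        exact Finset.card_le_univ _
      rw [card_colS] at h1 ⊢
      omega
    have hex : ∀ c : ColS R P w m, ∃ i ∈ X, colS S.col (nm i) = c := by
      intro c
      have := Finset.mem_univ c
      rw [← hsurj] at this
      simpa using this
    choose f hf1 hf2 using hex
    refine polyS_of_clique hw hm hq S.part S.col x (fun c => nm (f c)) hf2 ?_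
    intro c c' hne
    refine hadj _ (hf1 c) _ (hf1 c') ?_
    intro e
    apply hne
    rw [← hf2 c, ← hf2 c', e]
  · rintro ⟨b, hb⟩
    obtain ⟨g, hg⟩ := cliqueS_of_poly (P := P) hq S.part S.col S.sep x b hb
    refine ⟨Finset.univ.image (fun c => emb (g c)), ?_, ?_⟩
    · intro i hi j hj hne
      simp only [Finset.coe_image, Finset.coe_univ, Set.image_univ, Set.mem_range] at hi hj
      obtain ⟨c, rfl⟩ := hi
      obtain ⟨c', rfl⟩ := hj
      have hcc : c ≠ c' := by
        rintro rfl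
        exact hne rfl
      exact (adj_embS S hemb φ hφ x y hy _ _).mpr ⟨g c, g c', rfl, rfl, hg c c' hcc⟩
    · rw [Finset.card_image_of_injective, Finset.card_univ, card_colS]
      intro c c' hcc
      by_contra hne
      have h1 : g c = g c' := hemb hcc
      exact (hg c c' hne).1 (by rw [h1])

end Emb

/-- helper16 -/
theorem star_clique {N w m q K R P : ℕ} {A Pt : Type} [Fintype A] [Fintype Pt] (hw : 1 ≤ w)
    (hm : 1 ≤ m) (hq : 0 < q) (S : Star N A Pt R K m q) (U : Finset (EdgeVar N)) (hU : S.In U)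
    (hfit : Fintype.card A * Fintype.card Pt + K * (m * q) + m * ((w + 1) * (q * q)) + R + P ≤ N) :
    ∃ (z0 : EdgeVar N → Prop) (φ : A × Fin K → Fin m × Fin q → EdgeVar N),
      (∀ b b' i i', φ b i = φ b' i' → b = b' ∧ i = i') ∧ (∀ b i, ¬ z0 (φ b i)) ∧
      (∀ b i, φ b i ∈ U) ∧
      ∀ x : A × Fin K → Fin m × Fin q → Prop, ∀ y : EdgeVar N → Bool,
        (∀ j, y j = true ↔ fillIn z0 φ x j) →
        (HasClique N (m * (w + 1) + m + R + P) y ↔ ∃ b, HasPoly w m q (x b)) := by
  classical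
  obtain ⟨g, hg1, hg2⟩ := exists_rest (Y := Gad w m q ⊕ (Fin R ⊕ Fin P)) (Sum.elim S.cen S.leaf) (by
    simp only [Fintype.card_sum, Fintype.card_prod, Fintype.card_fin]
    omega)
  obtain ⟨emb, hemb, hce, hle⟩ : ∃ emb : VxS A Pt R K P w m q → Fin N, Function.Injective emb ∧
      (∀ c, emb (.inl c) = S.cen c) ∧ ∀ l, emb (lfS l) = S.leaf l := by
    refine ⟨Sum.elim S.cen (Sum.elim S.leaf g), ?_, fun _ => rfl, fun _ => rfl⟩
    have h1 : ∀ c c', S.cen c = S.cen c' → c = c' := fun c c' h =>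
      Sum.inl_injective (S.inj (a₁ := Sum.inl c) (a₂ := Sum.inl c') h)
    have h2 : ∀ l l', S.leaf l = S.leaf l' → l = l' := fun l l' h =>
      Sum.inr_injective (S.inj (a₁ := Sum.inr l) (a₂ := Sum.inr l') h)
    have h3 : ∀ c l, S.cen c ≠ S.leaf l := fun c l h => by
      have := S.inj (a₁ := Sum.inl c) (a₂ := Sum.inr l) h
      simp at this
    rintro (c | l | y) (c' | l' | y') h
    · rw [h1 c c' h]
    · exact absurd h (h3 c l')
    · exact absurd h.symm (hg2 y' (Sum.inl c))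
    · exact absurd h.symm (h3 c' l)
    · rw [h2 l l' h]
    · exact absurd h.symm (hg2 y' (Sum.inr l))
    · exact absurd h (hg2 y (Sum.inl c'))
    · exact absurd h (hg2 y (Sum.inr l'))
    · rw [hg1 h]
  have hex : ∀ (b : A × Fin K) (i : Fin m × Fin q), ∃ e : EdgeVar N,
      Joins e (emb (.inl (b.1, S.part (b.2, i)))) (emb (lfS (b.2, i))) :=
    fun b i => exists_joins (embS_ne S hemb b i)
  choose φ hφ using hex
  refine ⟨zS S emb, φ, ?_, ?_, ?_, ?_⟩
  · intro b b' i i' h
    have h1 := hφ b i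
    rw [h] at h1
    rcases joins_ends h1 (hφ b' i') with ⟨h2, h3⟩ | ⟨h2, h3⟩
    · have e1 := hemb h2
      have e2 := hemb h3
      have e3 : b.1 = b'.1 := by
        have := Sum.inl_injective e1
        exact (Prod.mk.inj this).1
      have e4 : (b.2, i) = (b'.2, i') := Sum.inl_injective (Sum.inr_injective e2)
      exact ⟨Prod.ext e3 (congrArg Prod.fst e4), congrArg Prod.snd e4⟩
    · exact absurd (hemb h2) (by simp [lfS])
  · rintro b i ⟨u, v, hu, hv, huv⟩
    rcases hφ b i with ⟨h1, h2⟩ | ⟨h1, h2⟩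
    · rw [h1] at hu
      rw [h2] at hv
      rw [hemb hu, hemb hv] at huv
      exact (huv.2.1 rfl).2
    · rw [h1] at hu
      rw [h2] at hv
      rw [hemb hu, hemb hv] at huv
      exact (huv.2.2 rfl).2
  · intro b i
    have h := hφ b i
    rw [hce, hle] at h
    exact hU b.1 (b.2, i) _ h
  · intro x y hy
    have h1 := cliqueS_iff S hw hm hq hemb φ hφ x y hy
    rw [← h1, hasClique_iff]
    have e : m * (w + 1) + m + R + P = R + (m + (m * (w + 1) + P)) := by omega
    rw [e]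

end Pool.Agent.Lib_MP_22d2c8_loc
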