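import Pool.Agent.Lib_MP_22d2c8_clq.CliqueBound

/-!
# On which inputs the negations must sit: definitions

Circuits are considered on the inputs which agree with a fixed input `z` outside a set `U` of
variables.
-/

set_option autoImplicit false

namespace Pool.Agent.Lib_MP_22d2c8_loc

open Finset
open Pool.Agent.Lib_MP_22d2c8_gen (Op Circuit)
open Pool.Agent.Lib_MP_22d2c8_clq

variable {V : Type} {s : ℕ}

open Classical in
/-- Along every increasing chain of inputs which agree with `z` outside `U` the vector of the
values of the entry vertices changes at most `T` times. -/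
def ChangesOn (C : Net V s) (U : Finset V) (z : V → Bool) (T : ℕ) : Prop :=
  ∀ (m : ℕ) (x : ℕ → V → Bool) (a : ℕ → V ⊕ Fin s → Bool),
    (∀ i ≤ m, ∀ j, j ∉ U → x i j = z j) →
    (∀ i < m, ∀ j, x i j = true → x (i + 1) j = true) → (∀ i ≤ m, C.IsRun (x i) (a i)) →
    ((Finset.range m).filter (fun i => ∃ u, C.IsEntry u ∧ a i u ≠ a (i + 1) u)).card ≤ T

/-- The vertex lies above a variable of `U`: there is a directed path from `U` to it. -/
inductive Above (C : Net V s) (U : Finset V) : V ⊕ Fin s → Prop
  | var (j : V) (hj : j ∈ U) : Above C U (Sum.inl j)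
  | gate (g : Fin s) (u : V ⊕ Fin s) (hu : u ∈ (C.op g).preds) (h : Above C U u) :
      Above C U (Sum.inr g)

open Classical in
/-- The number of wires which enter arbitrary gates and come from vertices above `U` (the number
of NOT gates above `U` if all the arbitrary gates are NOT gates). -/
noncomputable def wiresOn (C : Net V s) (U : Finset V) : ℕ :=
  ∑ g ∈ Finset.univ.filter (fun g => (C.op g).isArb = true),
    ((C.op g).preds.filter (fun u => Above C U u)).card

open Classical in
/-- The product over the levels of one plus the number of entry vertices of the level above `U`. -/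
noncomputable def prodOn [Fintype V] (C : Net V s) (U : Finset V) (M : ℕ)
    (lev : V ⊕ Fin s → ℕ) : ℕ :=
  ∏ l ∈ Finset.range M,
    (1 + (Finset.univ.filter (fun u => C.IsEntry u ∧ Above C U u ∧ lev u = l)).card)

/-- `e` is the edge between `i` and `j`. -/
def Joins {N : ℕ} (e : EdgeVar N) (i j : Fin N) : Prop :=
  (e.1.1 = i ∧ e.1.2 = j) ∨ (e.1.1 = j ∧ e.1.2 = i)

/-- The ends of the edges in `U`. -/
def touched {N : ℕ} (U : Finset (EdgeVar N)) : Finset (Fin N) :=
  U.image (fun e => e.1.1) ∪ U.image (fun e => e.1.2)

/-- The places of the variable edges: centres with a selector in `A` and a part in `Pt`, `K` arrays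
of `m * q` leaves; the leaf `(b, i)` belongs to the centres of its part; the colours of two
different parts of one array are different. -/
structure Star (N : ℕ) (A Pt : Type) (R K m q : ℕ) where
  /-- the centres -/
  cen : A × Pt → Fin N
  /-- the leaves -/
  leaf : Fin K × (Fin m × Fin q) → Fin N
  /-- the part of a leaf -/
  part : Fin K × (Fin m × Fin q) → Pt
  /-- the colour of a part -/
  col : Pt → Fin R
  inj : Function.Injective (Sum.elim cen leaf)
  sep : ∀ b i i', col (part (b, i)) = col (part (b, i')) → part (b, i) = part (b, i')

/-- The variable edges belong to `U`. -/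
def Star.In {N : ℕ} {A Pt : Type} {R K m q : ℕ} (S : Star N A Pt R K m q)
    (U : Finset (EdgeVar N)) : Prop :=
  ∀ (a : A) (l : Fin K × (Fin m × Fin q)) (e : EdgeVar N),
    Joins e (S.cen (a, S.part l)) (S.leaf l) → e ∈ U

end Pool.Agent.Lib_MP_22d2c8_loc
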